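import Pool.Agent.H36.FK.Main

set_option autoImplicit false

open Pool.Agent.H20.BK

/-- Let `g_k(n)` be the largest genus of a bar `k`-visibility graph with `n` vertices. For all
`k ≥ 1` and `n ≥ 1`: `k n / 2 + n / (12 (k + 1)) - 2 (k + 1)^2 ≤ g_k(n) ≤ k n`. -/
theorem Pool.Agent.Results.MP_275090_co.FixedK.result :
    ∀ k n : ℕ, 1 ≤ k → 1 ≤ n → ∃ g : ℕ, IsGreatest (genera k n) g ∧
      (k : ℝ) * n / 2 + n / (12 * ((k : ℝ) + 1)) - 2 * ((k : ℝ) + 1) ^ 2 ≤ g ∧ g ≤ k * n :=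
  fun k n hk hn => Pool.Agent.H36.FK.main k n hk hn
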