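import Pool.Agent.H20.BK.Main

set_option autoImplicit false

open Pool.Agent.H20.BK

/-- Let `g_k(n)` be the largest genus of a bar `k`-visibility graph with `n` vertices. Then
`g_k(n) = k n / 2 + O((k+1)^{2/3} log(k+2) n + (k+1)^2)` with an absolute constant; in particular
`g_k(n) ~ k n / 2` when `k` and `n / k` tend to infinity. -/
theorem Pool.Agent.Results.MP_275090_co.GenusAsymptotic.result :
    ∃ C : ℝ, ∀ k n : ℕ, 1 ≤ n → ∃ g : ℕ, IsGreatest (genera k n) g ∧
      |(g : ℝ) - (k : ℝ) * n / 2| ≤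
        C * (((k : ℝ) + 1) ^ ((2 : ℝ) / 3) * Real.log ((k : ℝ) + 2) * n + ((k : ℝ) + 1) ^ 2) :=
  main
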